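import Pool.Agent.U951.TR.Few
import Pool.Agent.U951.TR.CuspF

/-!
# The bound `|a(r)| ≤ r ^ (1/4 + ε)` for cusp forms of weight `3/2`: all integers near a value of the aliquot sum

Let `f_1, …, f_m` be cusp forms of weight `3/2` on `Γ_0(N_l)` with characters `χ_l` (`IsCuspForm`: Shimura's automorphy
factor, zero at all cusps), with the Fourier coefficients `a_l(n)`. For instance a basis of `S_{3/2}(24 p, χ)` or of its
subspace `S^{(1)}`. Let `G` have steps bounded below by a positive constant and order of growth at most `d ≥ 1`, let `0 <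
ε < 1/2`, `κ ≥ 0` and `d (1 - 2 ε) + κ < e ≤ 1`.

The bound `|a_f(r)| ≤ C(f) r ^ (1/4 + ε)` holds for ALL linear combinations `f` of the `f_l` and for ALL the integers `r ≥
1` with `|r - G g| ≤ g ^ κ`,

* for both `g = s(n) = σ(n) - n` and `g = n - φ(n)`, for a set of `n` of lower density at least `1 - e`: the bound for `r =
  s(n)` and `r = n - φ(n)` for a set of lower density at least `2 ε'` for every `ε' < ε`;

* for each of them for almost all of the `n` with a divisor `≥ n ^ e` which is a prime number or the product of two
  different prime numbers, and for ALL the values `α n + β h(n)` of the functions similar to these.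

Proof. `∑ |a(n)| ^ 2 ≤ C X ^ (3/2)` (classical; proved by helper857 in `Pool.Agent.U857.AF`), so there are at most `C X ^ (1 -
2 ε)` exceptions up to `X`. The numbers `s(n)` and `n - φ(n)` are not multiplicative and are taken with large
multiplicities, so that this bound alone says nothing about them; the tool `Pool.Agent.U365.POW` of helper365 (divisor
bound, `n = k v p`) is applied.
-/

set_option autoImplicit false

namespace Pool.Agent.Results.MP_af11aa_nt.AliquotValues

open UpperHalfPlane Pool.Agent.U857.AF
open Pool.Agent.U951.TR.Few (Near values)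
open Pool.Agent.U951.TR.CuspF (Bound few)
open Pool.Agent.U365.POW (Values Dens)
open Pool.Agent.N733.TG (Expanding expanding_pow)

/-- **Theorem.** For all finite families of cusp forms of weight `3/2`, all `0 < ε < 1/2`, `κ ≥ 0`, all `G` with steps
bounded below and order at most `d ≥ 1` and all `e ≤ 1` with `d (1 - 2 ε) + κ < e`: the bound with the exponent `1/4 + ε`
for all linear combinations of the forms and ALL the integers `r ≥ 1` with `|r - G g| ≤ g ^ κ` holds for the values `g` of
functions similar to the aliquot sum (`Values e`: for `s(n)`, for `n - φ(n)` and for all `α n + β h(n)`, for almost all the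
`n` with a divisor `≥ n ^ e` which is a prime or the product of two different primes), and for both `g = s(n)` and `g = n -
φ(n)` for a set of `n` of lower density at least `1 - e`. The functions `α v^d` with `α > 0`, `d ≥ 1` are examples of `G`. -/
theorem result :
    (∀ (m : ℕ) (N : Fin m → ℕ) (χ : ∀ l, DirichletCharacter ℂ (N l)) (f : Fin m → ℍ → ℂ) (a : Fin m → ℕ → ℂ),
      (∀ l, N l ≠ 0) → (∀ l, IsCuspForm (N l) (χ l) (f l)) → (∀ l, Coefficients (f l) (a l)) →
      ∀ ε κ : ℝ, 0 < ε → ε < 1 / 2 → 0 ≤ κ → ∀ (G : ℕ → ℝ) (d : ℝ), Expanding G d →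
      ∀ e : ℝ, d * (1 - 2 * ε) + κ < e → e ≤ 1 →
        Values e (Near (Bound a ε) G κ) ∧ Dens (1 - e) (Near (Bound a ε) G κ)) ∧
    ∀ α d : ℝ, 0 < α → 1 ≤ d → Expanding (fun v => α * (v : ℝ) ^ d) d := by
  refine ⟨?_, fun α d hα hd => expanding_pow hα hd⟩
  intro m N χ f a hN hf ha ε κ hε hε2 hκ G d hG e he he1
  obtain ⟨K, hK, h⟩ := few hN hf ha hε hε2
  exact values (by linarith) hK h hG hκ he he1

end Pool.Agent.Results.MP_af11aa_nt.AliquotValues
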