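import Pool.Agent.U951.TR.Few
import Pool.Agent.U951.TR.CuspF

/-!
# The bound `|a(r)| ≤ r ^ (1/4 + ε)` for cusp forms of weight `3/2`: all integers near an integer with a large common factor with a value of a multiplicative function

Let `f_1, …, f_m` be cusp forms of weight `3/2` on `Γ_0(N_l)` with characters `χ_l` (`IsCuspForm`: Shimura's automorphy
factor, zero at all cusps), with the Fourier coefficients `a_l(n)`. For instance a basis of `S_{3/2}(24 p, χ)` or of its
subspace `S^{(1)}`. Let `F` be a positive multiplicative function of at most polynomial growth such that `F q ≤ M q` for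
the large primes `q`, with different values at different large primes; for example Euler's function or the sum of the
divisors. Let `G` have steps bounded below by a positive constant and growth at most `v^d`, let `0 < ε < 1/2`, `κ ≥ 0`,
`d (1 - 2 ε) + κ < ρ ≤ 1`, `b < 1` and `0 ≤ s < 2 b - 1`.

For all `n ≤ X` but `X exp (-(log X)^s)`, for EVERY integer `w ≥ exp ((log X)^b)` with `gcd(w, F(n)) ≥ w^ρ`, the bound
`|a_f(r)| ≤ C(f) r ^ (1/4 + ε)` holds for ALL linear combinations `f` of the `f_l` and for ALL the integers `r ≥ 1` with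
`|r - G w| ≤ w ^ κ`. The integers `w` include all large divisors of `F(n)` and their multiples by small integers; for
Euler's function, the orders of the elements of the group of units modulo `n`.

Proof. `∑ |a(n)| ^ 2 ≤ C X ^ (3/2)` (classical; proved by helper857 in `Pool.Agent.U857.AF`), so there are at most `C X ^ (1 -
2 ε)` exceptions up to `X`. The tool `Pool.Agent.U536.CF` of helper536 (ordered factorizations, Hölder's inequality)
bounds the number of the `n` for which some such `w` has an exception in its window.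
-/

set_option autoImplicit false

namespace Pool.Agent.Results.MP_af11aa_nt.CommonFactors

open UpperHalfPlane Pool.Agent.U857.AF
open Pool.Agent.U951.TR.Few (Near common)
open Pool.Agent.U951.TR.CuspF (Bound few)
open Pool.Agent.U536.CF (Common common_of_dvd common_order)
open Pool.Agent.N733.TG (LM Expanding lm_totient lm_sigma expanding_pow)

/-- **Theorem.** For all finite families of cusp forms of weight `3/2`, all `0 < ε < 1/2`, `κ ≥ 0`, all `G` with steps
bounded below and order at most `d ≥ 1`, all `F` of the class `LM`, all `d (1 - 2 ε) + κ < ρ ≤ 1`, `b < 1` and `0 ≤ s < 2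
b - 1`: for all large `X`, for all `n ≤ X` but `X exp (-(log X)^s)`, for EVERY integer `w ≥ exp ((log X)^b)` with `gcd(w,
F(n)) ≥ w^ρ`, the bound with the exponent `1/4 + ε` holds for all linear combinations of the forms and ALL the integers `r
≥ 1` with `|r - G w| ≤ w ^ κ`. All divisors `w ≥ exp ((log X)^b)` of `F(n)` are such integers `w`, and for Euler's
function the orders `≥ exp ((log X)^b)` of the units modulo `n`. Euler's function and the sum of the divisors are
examples of `F`, and `α v^d` with `α > 0`, `d ≥ 1` is an example of `G`. -/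
theorem result :
    (∀ (m : ℕ) (N : Fin m → ℕ) (χ : ∀ l, DirichletCharacter ℂ (N l)) (f : Fin m → ℍ → ℂ) (a : Fin m → ℕ → ℂ),
      (∀ l, N l ≠ 0) → (∀ l, IsCuspForm (N l) (χ l) (f l)) → (∀ l, Coefficients (f l) (a l)) →
      ∀ ε κ : ℝ, 0 < ε → ε < 1 / 2 → 0 ≤ κ → ∀ (G : ℕ → ℝ) (d : ℝ), Expanding G d →
      ∀ F : ℕ → ℕ, LM F → ∀ ρ b s : ℝ, d * (1 - 2 * ε) + κ < ρ → ρ ≤ 1 → b < 1 → 0 ≤ s → s < 2 * b - 1 →
        ∃ X₀ : ℕ, ∀ X : ℕ, X₀ ≤ X →
          ({n : ℕ | 1 ≤ n ∧ n ≤ X ∧ ∃ w : ℕ, Common F b ρ X n w ∧ ¬ Near (Bound a ε) G κ w}.ncard : ℝ) ≤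
            X * Real.exp (-(Real.log X ^ s))) ∧
    (LM Nat.totient ∧ LM (fun m => ∑ d ∈ m.divisors, d)) ∧
    (∀ α d : ℝ, 0 < α → 1 ≤ d → Expanding (fun v => α * (v : ℝ) ^ d) d) ∧
    (∀ (F : ℕ → ℕ) (b ρ : ℝ) (X n w : ℕ), ρ ≤ 1 → Real.exp (Real.log X ^ b) ≤ (w : ℝ) → w ∣ F n → Common F b ρ X n w) ∧
    ∀ (b ρ : ℝ) (X n : ℕ), ρ ≤ 1 → ∀ x : (ZMod n)ˣ, Real.exp (Real.log X ^ b) ≤ (orderOf x : ℝ) →
      Common Nat.totient b ρ X n (orderOf x) := by
  refine ⟨?_, ⟨lm_totient, lm_sigma⟩, fun α d hα hd => expanding_pow hα hd, fun F b ρ X n w hρ hw hd => common_of_dvd hρ hw hd,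
    fun b ρ X n hρ x hx => common_order hρ x hx⟩
  intro m N χ f a hN hf ha ε κ hε hε2 hκ G d hG F hF ρ b s hρ hρ1 hb hs hsb
  obtain ⟨K, hK, h⟩ := few hN hf ha hε hε2
  exact common (by linarith) hK h hF hG hκ hρ hρ1 hb hs hsb

end Pool.Agent.Results.MP_af11aa_nt.CommonFactors
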