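import Pool.Agent.U857.AF.Main

/-!
# The bound `|a(r)| ≤ r ^ (1/4 + ε)` for cusp forms of weight `3/2` near the values of mixed functions on arbitrary sets

Let `f_1, …, f_m` be cusp forms of weight `3/2` on `Γ_0(N_l)` with characters `χ_l` (`IsCuspForm`: Shimura's automorphy factor,
zero at all cusps), with the Fourier coefficients `a_l(n)`. For instance a basis of `S_{3/2}(24 p, χ)` or of its subspace
`S^{(1)}`. Let `0 < ε < 1/2`, `κ ≥ 0`, `k - 2 ε + k κ < δ ≤ k`.

For almost all pairs `(u, v)` of elements of ARBITRARY finite sets `A`, `B` with at least `X ^ δ` elements, the bound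
`|a_f(r_i)| ≤ C(f) r_i ^ (1/4 + ε)` holds for ALL linear combinations `f` of the `f_l` and for ALL `(r_1, …, r_k)` at a distance
of at most `X ^ κ` from `H(u, v)`, where `H` is any function of two variables with values in `[-X, X] ^ k` and with few
coincidences (`RareV`), for instance `X = p` and the least residues modulo `p` of the `k` coordinates of `F(u, v) + g(u) + h(v)` in
the field of `p ^ k` elements, `F` any polynomial of bounded degree with a monomial which contains both variables, `g` and `h`
arbitrary functions.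

Proof: `|f(z)| ≤ C y ^ (-3/4)`, as `f ^ 4` is a cusp form of weight `6` (`Cusp.lean`); so `∑ |a(n)| ^ 2 ≤ C X ^ (3/2)` and there are at most
`C X ^ (1 - 2 ε)` exceptions up to `X` (`Bessel.lean`, `Count.lean`; this is classical). The sets `A`, `B` and the functions `g`, `h` are
arbitrary, and a vector may be taken by very many pairs; the inequality of Cauchy and Schwarz, and for most `u, u'` the
difference of the values at `(u, v)` and `(u', v)` is small for few `v` (`Pool/Agent/U449/BV/V.lean`).
-/

set_option autoImplicit false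

namespace Pool.Agent.Results.MP_af11aa_nt.MixedValuesOnSets

open UpperHalfPlane Pool.Agent.U857.AF Pool.Agent.U449.BV

/-- **Theorem.** For all finite families of cusp forms of weight `3/2`: the bound with the exponent `1/4 + ε` for all linear
combinations, near almost all values of vector functions of two variables with few coincidences on arbitrary sets
(`OnProductsV`), and near the coordinates of `F(u, v) + g(u) + h(v)` in a finite field, for almost all pairs `(u, v)` of two
arbitrary subsets with at least `p ^ δ` elements. -/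
theorem result : ∀ (k m : ℕ), 1 ≤ k → ∀ (N : Fin m → ℕ) (χ : ∀ l, DirichletCharacter ℂ (N l)) (f : Fin m → ℍ → ℂ)
    (a : Fin m → ℕ → ℂ), (∀ l, N l ≠ 0) → (∀ l, IsCuspForm (N l) (χ l) (f l)) → (∀ l, Coefficients (f l) (a l)) →
    ∀ ε κ : ℝ, 0 < ε → ε < 1 / 2 → 0 ≤ κ →
      OnProductsV k ((k : ℝ) - 2 * ε + k * κ) κ (Near a ε) ∧
      ∀ δ : ℝ, (k : ℝ) - 2 * ε + k * κ < δ → δ ≤ k → ∀ D : ℕ, ∃ ρ : ℝ, 0 < ρ ∧ ∃ p₀ : ℕ,
        ∀ (p : ℕ) [Fact p.Prime], p₀ ≤ p → ∀ (K : Type) [Field K] [Algebra (ZMod p) K]
          (b : Module.Basis (Fin k) (ZMod p) K) (F : MvPolynomial (Fin 2) K),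
          F.totalDegree ≤ D → (∃ m ∈ F.support, m 0 ≠ 0 ∧ m 1 ≠ 0) →
          ∀ (g h : K → K) (A B : Finset K), (p : ℝ) ^ δ ≤ A.card → (p : ℝ) ^ δ ≤ B.card →
            ({z : K × K | z.1 ∈ A ∧ z.2 ∈ B ∧ ¬ Near a ε ((p : ℝ) ^ κ)
              (fun i => (((b.repr (MvPolynomial.eval ![z.1, z.2] F + g z.1 + h z.2) i).val : ℕ) : ℝ))}.ncard : ℝ) ≤
              (p : ℝ) ^ (-ρ) * (A.card * B.card) := by
  intro k m hk N χ f a hN hf ha ε κ hε hε2 hκ
  have h1 := near (k := k) hk hN hf ha hε hε2 hκ
  exact ⟨h1, field h1⟩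

end Pool.Agent.Results.MP_af11aa_nt.MixedValuesOnSets
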