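import Pool.Agent.U951.TR.Few
import Pool.Agent.U951.TR.CuspF

/-!
# The bound `|a(r)| ≤ r ^ (1/4 + ε)` for cusp forms of weight `3/2`: all integers near a value of `F` at thin sets of arguments

Let `f_1, …, f_m` be cusp forms of weight `3/2` on `Γ_0(N_l)` with characters `χ_l` (`IsCuspForm`: Shimura's automorphy
factor, zero at all cusps), with the Fourier coefficients `a_l(n)`. For instance a basis of `S_{3/2}(24 p, χ)` or of its
subspace `S^{(1)}`. Let `F` be a positive multiplicative function of at most polynomial growth which for each `a ≥ 1` is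
injective at the powers `q ^ a` of the large primes and at most `M q ^ a` there; for example Euler's function or the sum
of the divisors. Let `G` have steps bounded below by a positive constant and order of growth at most `d ≥ 1`, let `0 < ε
< 1/2`, `κ ≥ 0` and `e = d (1 - 2 ε) + κ`.

The bound `|a_f(r)| ≤ C(f) r ^ (1/4 + ε)` holds for ALL linear combinations `f` of the `f_l` and for ALL the integers `r ≥
1` with `|r - G (F v)| ≤ (F v) ^ κ`, for almost all `v` (with a saving of any power of the logarithm) in each of the sets:

* the values of any integer polynomial without repeated roots, of degree `j` with `j e < 1`;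

* the shifted primes `q + a`, `a` any integer, if `e < 1`;

* the intervals `(x, x + y]`, `x^τ ≤ y ≤ x`, for every `τ > e`, `τ ≤ 1`.

For example, `|a_f(φ(q - 1))| ≤ C(f) φ(q - 1) ^ (1/4 + ε)` for almost all prime numbers `q`, for every `ε > 0`.

Proof. `∑ |a(n)| ^ 2 ≤ C X ^ (3/2)` (classical; proved by helper857 in `Pool.Agent.U857.AF`), so there are at most `C X ^ (1 -
2 ε)` exceptions up to `X`. The numbers `F v` are in a set of density zero and are taken with large multiplicities, so
that this bound alone says nothing about them; the tool `Pool.Agent.U405.RS` of helper405 (weighted Rankin method) shows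
that the values of `F` at almost all elements of these sets avoid every set with a power saving.
-/

set_option autoImplicit false

namespace Pool.Agent.Results.MP_af11aa_nt.SparseArguments

open UpperHalfPlane Pool.Agent.U857.AF
open Pool.Agent.U951.TR.Few (Near sparse)
open Pool.Agent.U951.TR.CuspF (Bound few)
open Pool.Agent.U405.RS (PM Sparse examples)
open Pool.Agent.N733.TG (Expanding expanding_pow)

/-- **Theorem.** For all finite families of cusp forms of weight `3/2`, all `0 < ε < 1/2`, `κ ≥ 0`, all `G` with steps
bounded below and order at most `d ≥ 1`, all `F` of the class `PM` and every `U`, with `e = d (1 - 2 ε) + κ`: the bound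
with the exponent `1/4 + ε` for all linear combinations of the forms and ALL the integers `r ≥ 1` with `|r - G (F v)| ≤ (F
v) ^ κ` holds in the sense `Sparse e F`: with a saving of `(log x)^U` for almost all `v` among the positive values of every
integer polynomial without repeated roots of degree `j`, `j e < 1`; among the shifted primes `q + a`, if `e < 1`; and in
all intervals `(x, x + y]`, `x^τ ≤ y ≤ x`, `e < τ ≤ 1`. Euler's function, the sum of the divisors and the identity are in
the class, and `α v^d` with `α > 0`, `d ≥ 1` is an example of `G`. -/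
theorem result :
    (∀ (m : ℕ) (N : Fin m → ℕ) (χ : ∀ l, DirichletCharacter ℂ (N l)) (f : Fin m → ℍ → ℂ) (a : Fin m → ℕ → ℂ),
      (∀ l, N l ≠ 0) → (∀ l, IsCuspForm (N l) (χ l) (f l)) → (∀ l, Coefficients (f l) (a l)) →
      ∀ ε κ : ℝ, 0 < ε → ε < 1 / 2 → 0 ≤ κ → ∀ (G : ℕ → ℝ) (d : ℝ), Expanding G d →
      ∀ F : ℕ → ℕ, PM F → ∀ U : ℕ, Sparse (d * (1 - 2 * ε) + κ) F (Near (Bound a ε) G κ) U) ∧
    (PM Nat.totient ∧ PM (fun m => ∑ d ∈ m.divisors, d) ∧ PM (fun m => m)) ∧
    ∀ α d : ℝ, 0 < α → 1 ≤ d → Expanding (fun v => α * (v : ℝ) ^ d) d := by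
  refine ⟨?_, examples, fun α d hα hd => expanding_pow hα hd⟩
  intro m N χ f a hN hf ha ε κ hε hε2 hκ G d hG F hF U
  obtain ⟨K, hK, h⟩ := few hN hf ha hε hε2
  exact sparse (by linarith) hK h hF hG hκ U

end Pool.Agent.Results.MP_af11aa_nt.SparseArguments
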